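import Mathlib
import Pool.Agent.Results.MP_3da00f_al.OneModFour

/-!
# Integer average orders of finite groups: the two smallest primes, and the values 5 and 9

If the average order `o(G)` of a finite group is an integer `n ≠ 1`, then `|G|` has at least two
prime divisors, and with the two smallest ones `p < q` we have
`n ≥ o(C_{pq}) = (p - 1 + 1/p) (q - 1 + 1/q)`. Hence `n ≥ 13`, and `n = 13` only for `p = 3`,
`q = 5`. The main tool: for every prime divisor `p` of `|G|` and every `p`-subgroup `P`, the prime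
`p` divides the sum of the orders of the `p`-regular elements of the centralizer of `P`.
-/

open Finset

namespace Pool.Agent.AvgOrd.TwoPrimes

open Pool.Agent.Results.MP_3da00f_al
open Pool.Agent.Results.MP_3da00f_al.OneModFour (avgOrder)

variable {G : Type*} [Group G] [Fintype G]

/-- A `p`-subgroup acts by conjugation on the elements of order `d`. -/
theorem card_modEq {p : ℕ} (hp : p.Prime) (P : Subgroup G) (hP : IsPGroup p P) (d : ℕ)
    [DecidablePred fun x : G => x ∈ Subgroup.centralizer (P : Set G)] :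
    #{x : G | orderOf x = d} ≡
      #{x : G | orderOf x = d ∧ x ∈ Subgroup.centralizer (P : Set G)} [MOD p] := by
  classical
  have : Fact p.Prime := ⟨hp⟩
  let act : MulAction P {x : G // orderOf x = d} :=
    { smul := fun g x => ⟨(g : G) * x.1 * (g : G)⁻¹, by
        have h1 : orderOf ((g : G) * x.1 * (g : G)⁻¹) = orderOf x.1 :=
          orderOf_injective (MulAut.conj (g : G)).toMonoidHom (MulAut.conj (g : G)).injective x.1
        rw [h1]
        exact x.2⟩
      one_smul := fun x => Subtype.ext (by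
        show ((1 : P) : G) * x.1 * ((1 : P) : G)⁻¹ = x.1
        simp)
      mul_smul := fun a b x => Subtype.ext (by
        show ((a * b : P) : G) * x.1 * ((a * b : P) : G)⁻¹ =
          (a : G) * ((b : G) * x.1 * (b : G)⁻¹) * (a : G)⁻¹
        push_cast
        group) }
  have h1 := hP.card_modEq_card_fixedPoints {x : G // orderOf x = d}
  have h2 : Nat.card (MulAction.fixedPoints P {x : G // orderOf x = d}) =
      #{x : G | orderOf x = d ∧ x ∈ Subgroup.centralizer (P : Set G)} := by
    rw [← Fintype.card_subtype, ← Nat.card_eq_fintype_card]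
    refine Nat.card_congr
      { toFun := fun y => ⟨y.1.1, y.1.2, ?_⟩
        invFun := fun y => ⟨⟨y.1, y.2.1⟩, ?_⟩
        left_inv := fun y => rfl
        right_inv := fun y => rfl }
    · rw [Subgroup.mem_centralizer_iff]
      intro g hg
      have h3 := y.2 ⟨g, hg⟩
      have h4 : g * y.1.1 * g⁻¹ = y.1.1 := congrArg Subtype.val h3
      exact mul_inv_eq_iff_eq_mul.1 h4
    · intro g
      refine Subtype.ext ?_
      show (g : G) * y.1 * (g : G)⁻¹ = y.1
      have h3 := Subgroup.mem_centralizer_iff.1 y.2.2 g g.2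
      rw [h3, mul_inv_cancel_right]
  rw [h2] at h1
  rwa [Nat.card_eq_fintype_card, Fintype.card_subtype] at h1

/-- If `p` divides the sum of the orders and `P` is a `p`-subgroup, then `p` divides the sum of
the orders of the elements of order prime to `p` in the centralizer of `P`. -/
theorem dvd_centralizer {p : ℕ} (hp : p.Prime) (hs : p ∣ ∑ x : G, orderOf x) (P : Subgroup G)
    (hP : IsPGroup p P) [DecidablePred fun x : G => x ∈ Subgroup.centralizer (P : Set G)] :
    p ∣ ∑ x : G with (x ∈ Subgroup.centralizer (P : Set G) ∧ ¬ p ∣ orderOf x), orderOf x := by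
  classical
  rw [← Nat.modEq_zero_iff_dvd] at hs ⊢
  refine Nat.ModEq.trans ?_ hs
  -- both sides as sums over the orders
  have h1 : ∑ x : G, orderOf x = ∑ d ∈ (univ : Finset G).image orderOf,
      #{x : G | orderOf x = d} * d := by
    rw [← Finset.sum_fiberwise_of_maps_to (s := (univ : Finset G))
      (t := (univ : Finset G).image orderOf) (g := fun x : G => orderOf x)
      fun x hx => Finset.mem_image_of_mem _ hx]
    refine Finset.sum_congr rfl fun d _ => ?_
    rw [Finset.sum_congr rfl (g := fun _ => d) (fun x hx => (Finset.mem_filter.1 hx).2),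
      Finset.sum_const, smul_eq_mul]
  have h2 : ∑ x : G with (x ∈ Subgroup.centralizer (P : Set G) ∧ ¬ p ∣ orderOf x), orderOf x =
      ∑ d ∈ (univ : Finset G).image orderOf,
        if p ∣ d then 0 else
          #{x : G | orderOf x = d ∧ x ∈ Subgroup.centralizer (P : Set G)} * d := by
    rw [← Finset.sum_fiberwise_of_maps_to
      (s := univ.filter fun x : G => x ∈ Subgroup.centralizer (P : Set G) ∧ ¬ p ∣ orderOf x)
      (t := (univ : Finset G).image orderOf) (g := fun x : G => orderOf x)
      fun x _ => Finset.mem_image_of_mem _ (Finset.mem_univ x)]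
    refine Finset.sum_congr rfl fun d _ => ?_
    rw [Finset.sum_congr rfl (g := fun _ => d) (fun x hx => (Finset.mem_filter.1 hx).2),
      Finset.sum_const, smul_eq_mul, Finset.filter_filter]
    split_ifs with hd
    · have h3 : (univ.filter fun x : G => (x ∈ Subgroup.centralizer (P : Set G) ∧
          ¬ p ∣ orderOf x) ∧ orderOf x = d) = ∅ := by
        rw [Finset.filter_eq_empty_iff]
        rintro x _ ⟨⟨_, h4⟩, h5⟩
        exact h4 (h5 ▸ hd)
      rw [h3, Finset.card_empty, zero_mul]
    · congr 2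
      ext x
      simp only [Finset.mem_filter, Finset.mem_univ, true_and]
      constructor
      · exact fun h => ⟨h.2, h.1.1⟩
      · exact fun h => ⟨⟨h.2, h.1 ▸ hd⟩, h.1⟩
  rw [h1, h2]
  refine Nat.ModEq.sum fun d _ => ?_
  split_ifs with hd
  · exact (Nat.modEq_zero_iff_dvd.2 (hd.mul_left _)).symm
  · exact (card_modEq hp P hP d).symm.mul_right d

/-- If `p` divides the sum of the orders, then every `p`-element commutes with a nontrivial
element of order prime to `p`. -/
theorem exists_commute {p k : ℕ} (hp : p.Prime) (hs : p ∣ ∑ x : G, orderOf x) (u : G)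
    (hu : orderOf u = p ^ k) : ∃ z : G, z ≠ 1 ∧ Commute u z ∧ ¬ p ∣ orderOf z := by
  classical
  by_contra hcon
  have hP : IsPGroup p (Subgroup.zpowers u) := by
    apply IsPGroup.of_card (n := k)
    rw [Nat.card_zpowers, hu]
  have h1 := dvd_centralizer hp hs (Subgroup.zpowers u) hP
  have h2 : (univ.filter fun x : G => x ∈ Subgroup.centralizer (Subgroup.zpowers u : Set G) ∧
      ¬ p ∣ orderOf x) = {1} := by
    ext x
    simp only [Finset.mem_filter, Finset.mem_univ, true_and, Finset.mem_singleton]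
    constructor
    · rintro ⟨h3, h4⟩
      by_contra hx
      exact hcon ⟨x, hx, Subgroup.mem_centralizer_iff.1 h3 u (Subgroup.mem_zpowers u), h4⟩
    · rintro rfl
      refine ⟨Subgroup.one_mem _, ?_⟩
      rw [orderOf_one, Nat.dvd_one]
      exact hp.ne_one
  rw [h2, Finset.sum_singleton, orderOf_one] at h1
  exact hp.one_lt.ne' (Nat.dvd_one.1 h1)

/-- The same with an element of prime order. -/
theorem exists_prime_commute {p k : ℕ} (hp : p.Prime) (hs : p ∣ ∑ x : G, orderOf x) (u : G)
    (hu : orderOf u = p ^ k) : ∃ q : ℕ, q.Prime ∧ q ≠ p ∧ ∃ z : G, Commute u z ∧ orderOf z = q := by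
  obtain ⟨z, hz1, hc, hpz⟩ := exists_commute hp hs u hu
  have h1 : orderOf z ≠ 1 := fun h => hz1 (orderOf_eq_one_iff.1 h)
  obtain ⟨q, hq, hqz⟩ := Nat.exists_prime_and_dvd h1
  refine ⟨q, hq, ?_, z ^ (orderOf z / q), hc.pow_right _, ?_⟩
  · rintro rfl
    exact hpz hqz
  · exact orderOf_pow_orderOf_div (orderOf_pos z).ne' hqz

/-- An order with the only prime divisor `p` is a power of `p`. -/
theorem eq_pow {p n : ℕ} (hn : n ≠ 0) (h : n.primeFactors = {p}) : ∃ k : ℕ, n = p ^ k := by
  refine ⟨_, Nat.eq_prime_pow_of_unique_prime_dvd hn ?_⟩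
  intro d hd hdn
  have h1 : d ∈ n.primeFactors := Nat.mem_primeFactors.2 ⟨hd, hdn, hn⟩
  rw [h] at h1
  exact Finset.mem_singleton.1 h1

/-- Every nontrivial `p`-element has at least `r - 1` partners of mixed order. -/
theorem card_mixed {p r : ℕ} (hp : p.Prime) (hs : p ∣ ∑ x : G, orderOf x)
    (hr : ∀ q : ℕ, q.Prime → q ∣ Fintype.card G → q ≠ p → r ≤ q) :
    #{x : G | (orderOf x).primeFactors = {p}} * (r - 1) ≤
      #{x : G | 2 ≤ #(orderOf x).primeFactors ∧ p ∈ (orderOf x).primeFactors} := by
  classical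
  obtain ⟨K, m, hm, hcard⟩ := Nat.exists_eq_pow_mul_and_not_dvd
    (Fintype.card_ne_zero (α := G)) p hp.ne_one
  have hco : Nat.Coprime (p ^ K) m :=
    Nat.Coprime.pow_left K ((Nat.Prime.coprime_iff_not_dvd hp).2 hm)
  obtain ⟨e, he1, he0⟩ := Nat.chineseRemainder hco 1 0
  have he0' : m ∣ e := Nat.modEq_zero_iff_dvd.1 he0
  have hsub : (univ.filter fun x : G => (2 ≤ #(orderOf x).primeFactors ∧
      p ∈ (orderOf x).primeFactors) ∧ (orderOf (x ^ e)).primeFactors = {p}) ⊆
      univ.filter fun x : G => 2 ≤ #(orderOf x).primeFactors ∧ p ∈ (orderOf x).primeFactors := by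
    intro x hx
    rw [Finset.mem_filter] at hx ⊢
    exact ⟨hx.1, hx.2.1⟩
  refine le_trans ?_ (Finset.card_le_card hsub)
  have hfib := Finset.card_eq_sum_card_fiberwise (f := fun x : G => x ^ e)
    (s := univ.filter fun x : G => (2 ≤ #(orderOf x).primeFactors ∧
      p ∈ (orderOf x).primeFactors) ∧ (orderOf (x ^ e)).primeFactors = {p})
    (t := univ.filter fun x : G => (orderOf x).primeFactors = {p}) (by
      intro x hx
      have hx' := (Finset.mem_filter.1 (Finset.mem_coe.1 hx)).2.2
      exact Finset.mem_coe.2 (Finset.mem_filter.2 ⟨Finset.mem_univ _, hx'⟩))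
  rw [hfib]
  rw [← smul_eq_mul]
  refine Finset.card_nsmul_le_sum _ _ _ ?_
  intro u hu
  rw [Finset.mem_filter] at hu
  obtain ⟨k, hk⟩ := eq_pow (orderOf_pos u).ne' hu.2
  obtain ⟨q, hq, hqp, z, hc, hz⟩ := exists_prime_commute hp hs u hk
  have hqG : q ∣ Fintype.card G := by
    rw [← hz]
    exact orderOf_dvd_card
  have hqm : q ∣ m := by
    rw [hcard] at hqG
    refine Nat.Coprime.dvd_of_dvd_mul_left ?_ hqG
    exact ((Nat.coprime_primes hq hp).2 hqp).pow_right K
  have huK : orderOf u ∣ p ^ K := by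
    have h1 : orderOf u ∣ p ^ K * m := by
      rw [← hcard]
      exact orderOf_dvd_card
    refine Nat.Coprime.dvd_of_dvd_mul_right ?_ h1
    rw [hk]
    exact Nat.Coprime.pow_left k ((Nat.Prime.coprime_iff_not_dvd hp).2 hm)
  have hue : u ^ e = u := by
    have h1 : u ^ e = u ^ 1 := pow_eq_pow_iff_modEq.2 (he1.of_dvd huK)
    rwa [pow_one] at h1
  have hze : z ^ e = 1 := by
    rw [← orderOf_dvd_iff_pow_eq_one, hz]
    exact hqm.trans he0'
  have hrq : r - 1 ≤ #(Finset.Ico 1 q) := by
    rw [Nat.card_Ico]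
    exact Nat.sub_le_sub_right (hr q hq hqG hqp) 1
  refine hrq.trans ?_
  refine Finset.card_le_card_of_injOn (fun i => u * z ^ i) ?_ ?_
  · intro i hi
    have hi' := Finset.mem_Ico.1 (Finset.mem_coe.1 hi)
    have hoz : orderOf (z ^ i) = q := by
      have h1 : (orderOf z).Coprime i := by
        rw [hz]
        exact Nat.coprime_of_lt_prime (by omega) hi'.2 hq
      rw [Nat.Coprime.orderOf_pow h1, hz]
    have hcop : (orderOf u).Coprime (orderOf (z ^ i)) := by
      rw [hk, hoz]
      exact Nat.Coprime.pow_left k ((Nat.coprime_primes hp hq).2 (Ne.symm hqp))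
    have ho : orderOf (u * z ^ i) = orderOf u * orderOf (z ^ i) :=
      (hc.pow_right i).orderOf_mul_eq_mul_orderOf_of_coprime hcop
    have hpf : (orderOf (u * z ^ i)).primeFactors = {p, q} := by
      rw [ho, hcop.primeFactors_mul, hu.2, hoz, hq.primeFactors]
      rfl
    have hpow : (u * z ^ i) ^ e = u := by
      rw [(hc.pow_right i).mul_pow, hue, ← pow_mul, mul_comm i e, pow_mul, hze, one_pow, mul_one]
    refine Finset.mem_coe.2 (Finset.mem_filter.2 ⟨Finset.mem_filter.2
      ⟨Finset.mem_univ _, ⟨?_, ?_⟩, ?_⟩, hpow⟩)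
    · rw [hpf, Finset.card_pair (Ne.symm hqp)]
    · rw [hpf]
      exact Finset.mem_insert_self _ _
    · rw [hpow]
      exact hu.2
  · intro i hi j hj hij
    have hi' := Finset.mem_Ico.1 (Finset.mem_coe.1 hi)
    have hj' := Finset.mem_Ico.1 (Finset.mem_coe.1 hj)
    have h1 : z ^ i = z ^ j := mul_left_cancel hij
    have h2 := pow_eq_pow_iff_modEq.1 h1
    rw [hz] at h2
    exact h2.eq_of_lt_of_lt hi'.2 hj'.2

/-- There are at least `p - 1` elements of order `p`. -/
theorem card_pelem {p : ℕ} (hp : p.Prime) (hpG : p ∣ Fintype.card G) :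
    p - 1 ≤ #{x : G | (orderOf x).primeFactors = {p}} := by
  classical
  have : Fact p.Prime := ⟨hp⟩
  obtain ⟨g, hg⟩ := exists_prime_orderOf_dvd_card p hpG
  rw [← Nat.card_Ico 1 p]
  refine Finset.card_le_card_of_injOn (fun i => g ^ i) ?_ ?_
  · intro i hi
    have hi' := Finset.mem_Ico.1 (Finset.mem_coe.1 hi)
    have h1 : (orderOf g).Coprime i := by
      rw [hg]
      exact Nat.coprime_of_lt_prime (by omega) hi'.2 hp
    refine Finset.mem_coe.2 (Finset.mem_filter.2 ⟨Finset.mem_univ _, ?_⟩)
    show (orderOf (g ^ i)).primeFactors = {p}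
    rw [Nat.Coprime.orderOf_pow h1, hg, hp.primeFactors]
  · intro i hi j hj hij
    have hi' := Finset.mem_Ico.1 (Finset.mem_coe.1 hi)
    have hj' := Finset.mem_Ico.1 (Finset.mem_coe.1 hj)
    have h2 := pow_eq_pow_iff_modEq.1 hij
    rw [hg] at h2
    exact h2.eq_of_lt_of_lt hi'.2 hj'.2

/-- The average order of the elements of the cyclic group of order `p q`. -/
def cc (p q : ℕ) : ℚ := ((p : ℚ) - 1 + 1 / p) * ((q : ℚ) - 1 + 1 / q)

/-- The gain. -/
def sl (p q : ℕ) : ℚ := (cc p q - 1) / (((p : ℚ) - 1) * ((q : ℚ) - 1))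

/-- The payment of an element of mixed order. -/
def bb (p q r : ℕ) : ℚ := max 0 (cc p q - r) / (if r = p then (q : ℚ) - 1 else (p : ℚ) - 1)

section arith

variable {p q : ℕ} (hp : 3 ≤ p) (hpq : p < q)

include hp hpq

theorem cc_ge : (q : ℚ) ≤ cc p q := by
  have h1 : (3 : ℚ) ≤ p := by exact_mod_cast hp
  have h2 : (p : ℚ) + 1 ≤ q := by exact_mod_cast hpq
  have h3 : (0 : ℚ) < 1 / p := one_div_pos.2 (by linarith)
  have h4 : (0 : ℚ) < 1 / q := one_div_pos.2 (by linarith)
  unfold cc
  nlinarith

theorem cc_le : cc p q ≤ p * q := by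
  have h1 : (3 : ℚ) ≤ p := by exact_mod_cast hp
  have h2 : (p : ℚ) + 1 ≤ q := by exact_mod_cast hpq
  have h3 : (1 : ℚ) / p ≤ 1 := by
    rw [div_le_one (by linarith)]
    linarith
  have h4 : (1 : ℚ) / q ≤ 1 := by
    rw [div_le_one (by linarith)]
    linarith
  have h5 : (0 : ℚ) < 1 / p := one_div_pos.2 (by linarith)
  have h6 : (0 : ℚ) < 1 / q := one_div_pos.2 (by linarith)
  unfold cc
  apply mul_le_mul <;> linarith

theorem bb_nonneg (r : ℕ) : 0 ≤ bb p q r := by
  have h1 : (3 : ℚ) ≤ p := by exact_mod_cast hp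
  have h2 : (p : ℚ) + 1 ≤ q := by exact_mod_cast hpq
  unfold bb
  apply div_nonneg (le_max_left _ _)
  split_ifs <;> linarith

theorem bb_p : bb p q p = (cc p q - p) / ((q : ℚ) - 1) := by
  have h2 : (p : ℚ) + 1 ≤ q := by exact_mod_cast hpq
  have h3 := cc_ge hp hpq
  unfold bb
  rw [if_pos rfl, max_eq_right (by linarith)]

theorem bb_q : bb p q q = (cc p q - q) / ((p : ℚ) - 1) := by
  have h3 := cc_ge hp hpq
  unfold bb
  rw [if_neg (by omega), max_eq_right (by linarith)]

theorem total : cc p q + bb p q p + bb p q q + sl p q = p * q := by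
  have h1 : (3 : ℚ) ≤ p := by exact_mod_cast hp
  have h2 : (p : ℚ) + 1 ≤ q := by exact_mod_cast hpq
  rw [bb_p hp hpq, bb_q hp hpq]
  unfold sl
  have h3 : (p : ℚ) - 1 ≠ 0 := by linarith
  have h4 : (q : ℚ) - 1 ≠ 0 := by linarith
  have h5 : (p : ℚ) ≠ 0 := by linarith
  have h6 : (q : ℚ) ≠ 0 := by linarith
  unfold cc
  field_simp
  ring

theorem bb_le {r : ℕ} (hr : q ≤ r) : bb p q r ≤ bb p q q := by
  have h1 : (3 : ℚ) ≤ p := by exact_mod_cast hp
  have h2 : (q : ℚ) ≤ r := by exact_mod_cast hr
  have h3 := cc_ge hp hpq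
  rw [bb_q hp hpq]
  unfold bb
  rw [if_neg (by omega)]
  apply div_le_div_of_nonneg_right _ (by linarith)
  apply max_le <;> linarith

theorem bb_q_le : bb p q q ≤ q := by
  have h1 : (3 : ℚ) ≤ p := by exact_mod_cast hp
  have h2 := cc_le hp hpq
  rw [bb_q hp hpq, div_le_iff₀ (by linarith)]
  linarith

theorem bb_p_le : bb p q p ≤ q := by
  have h1 : (3 : ℚ) ≤ p := by exact_mod_cast hp
  have h3 : (p : ℚ) + 1 ≤ q := by exact_mod_cast hpq
  have h2 := cc_le hp hpq
  rw [bb_p hp hpq, div_le_iff₀ (by linarith)]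
  nlinarith

theorem bb_le_q {r : ℕ} (hr : r = p ∨ q ≤ r) : bb p q r ≤ q := by
  rcases hr with rfl | hr
  · exact bb_p_le hp hpq
  · exact (bb_le hp hpq hr).trans (bb_q_le hp hpq)

theorem pair_le {a b : ℕ} (hab : a ≠ b) (ha : a = p ∨ q ≤ a) (hb : b = p ∨ q ≤ b) :
    bb p q a + bb p q b + (cc p q + sl p q) ≤ (a : ℚ) * b := by
  have h1 : (3 : ℚ) ≤ p := by exact_mod_cast hp
  have h0 : (p : ℚ) + 1 ≤ q := by exact_mod_cast hpq
  have ht := total hp hpq
  have hbp := bb_nonneg hp hpq p
  have hq1 := bb_q_le hp hpq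
  rcases ha with rfl | ha
  · rcases hb with rfl | hb
    · exact absurd rfl hab
    · have h2 := bb_le hp hpq hb
      have h3 : (q : ℚ) ≤ b := by exact_mod_cast hb
      nlinarith
  · have h2 := bb_le hp hpq ha
    have h3 : (q : ℚ) ≤ a := by exact_mod_cast ha
    rcases hb with rfl | hb
    · nlinarith
    · have h4 := bb_le hp hpq hb
      have h5 : (q : ℚ) ≤ b := by exact_mod_cast hb
      rcases lt_or_gt_of_ne hab with h | h
      · have h6 : (a : ℚ) + 1 ≤ b := by exact_mod_cast h
        nlinarith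
      · have h6 : (b : ℚ) + 1 ≤ a := by exact_mod_cast h
        nlinarith

theorem sl_nonneg : 0 ≤ sl p q := by
  have h1 : (3 : ℚ) ≤ p := by exact_mod_cast hp
  have h0 : (p : ℚ) + 1 ≤ q := by exact_mod_cast hpq
  have h3 := cc_ge hp hpq
  unfold sl
  apply div_nonneg (by linarith)
  nlinarith

theorem prod_ge (S : Finset ℕ) (hS : ∀ r ∈ S, r = p ∨ q ≤ r) (h2 : 2 ≤ #S) :
    ∑ r ∈ S, bb p q r + (cc p q + sl p q) ≤ ∏ r ∈ S, (r : ℚ) := by
  classical
  induction S using Finset.induction_on with
  | empty => simp at h2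
  | insert a S ha ih =>
    rw [Finset.sum_insert ha, Finset.prod_insert ha]
    have haa := hS a (Finset.mem_insert_self _ _)
    rcases lt_or_ge #S 2 with h | h
    · rw [Finset.card_insert_of_notMem ha] at h2
      have h3 : #S = 1 := by omega
      obtain ⟨b, rfl⟩ := Finset.card_eq_one.1 h3
      rw [Finset.sum_singleton, Finset.prod_singleton]
      refine pair_le hp hpq ?_ haa (hS b (Finset.mem_insert_of_mem (Finset.mem_singleton_self _)))
      rintro rfl
      exact ha (Finset.mem_singleton_self _)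
    · have h3 := ih (fun r hr => hS r (Finset.mem_insert_of_mem hr)) h
      have h4 : (0 : ℚ) ≤ ∑ r ∈ S, bb p q r := Finset.sum_nonneg fun r _ => bb_nonneg hp hpq r
      have h5 := cc_ge hp hpq
      have h6 := sl_nonneg hp hpq
      have h7 := bb_le_q hp hpq haa
      have h8 : (3 : ℚ) ≤ a := by
        rcases haa with rfl | haa
        · exact_mod_cast hp
        · have : 3 ≤ a := by omega
          exact_mod_cast this
      have h9 : (q : ℚ) ≤ ∏ r ∈ S, (r : ℚ) := by linarith
      have h10 : (0 : ℚ) ≤ q := by positivity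
      nlinarith

end arith

/-- The bound for every single element. -/
theorem pointwise {p q : ℕ} (hp : 3 ≤ p) (hpq : p < q)
    (hr : ∀ r : ℕ, r.Prime → r ∣ Fintype.card G → r = p ∨ q ≤ r) (x : G) [DecidableEq G] :
    (if x = 1 then 1 - cc p q else 0) -
      (∑ r ∈ (Fintype.card G).primeFactors,
        if (orderOf x).primeFactors = {r} then max 0 (cc p q - r) else 0) +
      (if 2 ≤ #(orderOf x).primeFactors then
        (∑ r ∈ (orderOf x).primeFactors, bb p q r) + sl p q else 0) ≤
    (orderOf x : ℚ) - cc p q := by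
  have hsum : (0 : ℚ) ≤ ∑ r ∈ (Fintype.card G).primeFactors,
      if (orderOf x).primeFactors = {r} then max 0 (cc p q - r) else 0 := by
    refine Finset.sum_nonneg fun r _ => ?_
    split_ifs
    · exact le_max_left _ _
    · exact le_rfl
  have hmem : ∀ r ∈ (orderOf x).primeFactors, r ∈ (Fintype.card G).primeFactors := by
    intro r h
    exact Nat.primeFactors_mono orderOf_dvd_card Fintype.card_ne_zero h
  rcases lt_or_ge #(orderOf x).primeFactors 2 with h | h
  · rw [if_neg (not_le.2 h), add_zero]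
    rcases Nat.lt_or_ge #(orderOf x).primeFactors 1 with h0 | h0
    · have h1 : (orderOf x).primeFactors = ∅ := Finset.card_eq_zero.1 (by omega)
      rcases Nat.primeFactors_eq_empty.1 h1 with h2 | h2
      · exact absurd h2 (orderOf_pos x).ne'
      · have hx : x = 1 := orderOf_eq_one_iff.1 h2
        have h3 : (orderOf x : ℚ) = 1 := by
          rw [h2]
          norm_num
        rw [if_pos hx]
        linarith
    · obtain ⟨r, hr1⟩ := Finset.card_eq_one.1 (le_antisymm (Nat.lt_succ_iff.1 h) h0)
      have hrm : r ∈ (orderOf x).primeFactors := by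
        rw [hr1]
        exact Finset.mem_singleton_self _
      have hx : x ≠ 1 := by
        rintro rfl
        rw [orderOf_one, Nat.primeFactors_one] at hrm
        exact absurd hrm (Finset.notMem_empty _)
      rw [if_neg hx]
      have h3 : (if (orderOf x).primeFactors = {r} then max 0 (cc p q - r) else 0) ≤
          ∑ r ∈ (Fintype.card G).primeFactors,
            if (orderOf x).primeFactors = {r} then max 0 (cc p q - r) else 0 := by
        refine Finset.single_le_sum (f := fun r : ℕ =>
          if (orderOf x).primeFactors = {r} then max 0 (cc p q - (r : ℚ)) else 0) ?_ (hmem r hrm)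
        intro i _
        show (0 : ℚ) ≤ if (orderOf x).primeFactors = {i} then max 0 (cc p q - (i : ℚ)) else 0
        split_ifs
        · exact le_max_left _ _
        · exact le_rfl
      rw [if_pos hr1] at h3
      have h4 : cc p q - r ≤ max 0 (cc p q - r) := le_max_right _ _
      have h5 : (r : ℚ) ≤ orderOf x := by
        exact_mod_cast Nat.le_of_dvd (orderOf_pos x) (Nat.dvd_of_mem_primeFactors hrm)
      linarith
  · rw [if_pos h]
    have hx : x ≠ 1 := by
      rintro rfl
      rw [orderOf_one, Nat.primeFactors_one] at h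
      simp at h
    rw [if_neg hx]
    have h1 := prod_ge hp hpq (orderOf x).primeFactors (fun r hrm => by
      have h2 := hmem r hrm
      exact hr r (Nat.prime_of_mem_primeFactors h2) (Nat.dvd_of_mem_primeFactors h2)) h
    have h2 : ∏ r ∈ (orderOf x).primeFactors, (r : ℚ) ≤ orderOf x := by
      have h3 := Nat.le_of_dvd (orderOf_pos x) (Nat.prod_primeFactors_dvd (orderOf x))
      rw [← Nat.cast_prod]
      exact Nat.cast_le.2 h3
    linarith

/-- The lower bound for the sum of the orders. -/
theorem main {p q : ℕ} (hp : p.Prime) (hp3 : 3 ≤ p) (hq : q.Prime) (hpq : p < q)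
    (hpG : p ∣ Fintype.card G)
    (hr : ∀ r : ℕ, r.Prime → r ∣ Fintype.card G → r = p ∨ q ≤ r)
    (hs : ∀ r : ℕ, r.Prime → r ∣ Fintype.card G → r ∣ ∑ x : G, orderOf x) :
    cc p q * Fintype.card G ≤ ∑ x : G, (orderOf x : ℚ) := by
  classical
  have hq2 : (p : ℚ) + 1 ≤ q := by exact_mod_cast hpq
  have hp2 : (3 : ℚ) ≤ p := by exact_mod_cast hp3
  have hsl := sl_nonneg hp3 hpq
  have h1 : ∑ x : G, ((if x = 1 then 1 - cc p q else 0) -
      (∑ r ∈ (Fintype.card G).primeFactors,
        if (orderOf x).primeFactors = {r} then max 0 (cc p q - r) else 0) +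
      (if 2 ≤ #(orderOf x).primeFactors then
        (∑ r ∈ (orderOf x).primeFactors, bb p q r) + sl p q else 0)) ≤
      ∑ x : G, ((orderOf x : ℚ) - cc p q) :=
    Finset.sum_le_sum fun x _ => pointwise hp3 hpq hr x
  rw [Finset.sum_add_distrib, Finset.sum_sub_distrib, Finset.sum_sub_distrib, Finset.sum_const,
    nsmul_eq_mul, Finset.card_univ, Finset.sum_ite_eq' univ (1 : G) fun _ => 1 - cc p q,
    if_pos (Finset.mem_univ _), Finset.sum_comm] at h1
  -- the elements of prime power order
  have h2 : ∑ r ∈ (Fintype.card G).primeFactors, ∑ x : G,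
      (if (orderOf x).primeFactors = {r} then max 0 (cc p q - r) else 0) =
      ∑ r ∈ (Fintype.card G).primeFactors,
        (#{x : G | (orderOf x).primeFactors = {r}} : ℚ) * max 0 (cc p q - r) := by
    refine Finset.sum_congr rfl fun r _ => ?_
    rw [← Finset.sum_filter, Finset.sum_const, nsmul_eq_mul]
  -- the elements of mixed order
  have h3 : ∑ x : G, (if 2 ≤ #(orderOf x).primeFactors then
        (∑ r ∈ (orderOf x).primeFactors, bb p q r) + sl p q else 0) =
      ∑ r ∈ (Fintype.card G).primeFactors,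
        (#{x : G | 2 ≤ #(orderOf x).primeFactors ∧ r ∈ (orderOf x).primeFactors} : ℚ) *
          bb p q r + (#{x : G | 2 ≤ #(orderOf x).primeFactors} : ℚ) * sl p q := by
    rw [← Finset.sum_filter, Finset.sum_add_distrib, Finset.sum_const, nsmul_eq_mul]
    congr 1
    have h4 : ∀ x : G, ∑ r ∈ (orderOf x).primeFactors, bb p q r =
        ∑ r ∈ (Fintype.card G).primeFactors,
          if r ∈ (orderOf x).primeFactors then bb p q r else 0 := by
      intro x
      rw [← Finset.sum_filter]
      congr 1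
      ext r
      rw [Finset.mem_filter]
      constructor
      · exact fun h => ⟨Nat.primeFactors_mono orderOf_dvd_card Fintype.card_ne_zero h, h⟩
      · exact fun h => h.2
    rw [Finset.sum_congr rfl fun x _ => h4 x, Finset.sum_comm]
    refine Finset.sum_congr rfl fun r _ => ?_
    rw [← Finset.sum_filter, Finset.sum_const, nsmul_eq_mul, Finset.filter_filter]
  rw [h2, h3] at h1
  -- the comparison prime by prime
  have h5 : ∑ r ∈ (Fintype.card G).primeFactors,
        (#{x : G | (orderOf x).primeFactors = {r}} : ℚ) * max 0 (cc p q - r) ≤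
      ∑ r ∈ (Fintype.card G).primeFactors,
        (#{x : G | 2 ≤ #(orderOf x).primeFactors ∧ r ∈ (orderOf x).primeFactors} : ℚ) *
          bb p q r := by
    refine Finset.sum_le_sum fun r hrm => ?_
    have hrp := Nat.prime_of_mem_primeFactors hrm
    have hrd := Nat.dvd_of_mem_primeFactors hrm
    by_cases hrep : r = p
    · have h6 := card_mixed (G := G) (r := q) hrp (hs r hrp hrd) (by
        intro t ht htG htr
        rcases hr t ht htG with h | h
        · exact absurd (h.trans hrep.symm) htr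
        · exact h)
      have h7 : (#{x : G | (orderOf x).primeFactors = {r}} : ℚ) * ((q : ℚ) - 1) ≤
          #{x : G | 2 ≤ #(orderOf x).primeFactors ∧ r ∈ (orderOf x).primeFactors} := by
        have h8 : ((q - 1 : ℕ) : ℚ) = (q : ℚ) - 1 := by
          rw [Nat.cast_sub hq.one_le, Nat.cast_one]
        rw [← h8]
        exact_mod_cast h6
      have h9 : max 0 (cc p q - r) = ((q : ℚ) - 1) * bb p q r := by
        unfold bb
        rw [if_pos hrep]
        have h10 : (q : ℚ) - 1 ≠ 0 := by linarith
        field_simp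
      rw [h9, ← mul_assoc]
      exact mul_le_mul_of_nonneg_right h7 (bb_nonneg hp3 hpq r)
    · have h6 := card_mixed (G := G) (r := p) hrp (hs r hrp hrd) (by
        intro t ht htG _
        rcases hr t ht htG with h | h
        · exact h.ge
        · omega)
      have h7 : (#{x : G | (orderOf x).primeFactors = {r}} : ℚ) * ((p : ℚ) - 1) ≤
          #{x : G | 2 ≤ #(orderOf x).primeFactors ∧ r ∈ (orderOf x).primeFactors} := by
        have h8 : ((p - 1 : ℕ) : ℚ) = (p : ℚ) - 1 := by
          rw [Nat.cast_sub hp.one_le, Nat.cast_one]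
        rw [← h8]
        exact_mod_cast h6
      have h9 : max 0 (cc p q - r) = ((p : ℚ) - 1) * bb p q r := by
        unfold bb
        rw [if_neg hrep]
        have h10 : (p : ℚ) - 1 ≠ 0 := by linarith
        field_simp
      rw [h9, ← mul_assoc]
      exact mul_le_mul_of_nonneg_right h7 (bb_nonneg hp3 hpq r)
  -- the number of the elements of mixed order
  have h6 : ((p : ℚ) - 1) * ((q : ℚ) - 1) ≤ (#{x : G | 2 ≤ #(orderOf x).primeFactors} : ℚ) := by
    have h7 := card_mixed (G := G) (r := q) hp (hs p hp hpG) (by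
        intro t ht htG htr
        rcases hr t ht htG with h | h
        · exact absurd h htr
        · exact h)
    have h8 := card_pelem (G := G) hp hpG
    have h9 : #{x : G | 2 ≤ #(orderOf x).primeFactors ∧ p ∈ (orderOf x).primeFactors} ≤
        #{x : G | 2 ≤ #(orderOf x).primeFactors} := by
      refine Finset.card_le_card ?_
      intro x hx
      rw [Finset.mem_filter] at hx ⊢
      exact ⟨hx.1, hx.2.1⟩
    have h10 : (p - 1) * (q - 1) ≤ #{x : G | 2 ≤ #(orderOf x).primeFactors} :=
      (Nat.mul_le_mul_right (q - 1) h8).trans (h7.trans h9)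
    have h11 : (((p - 1) * (q - 1) : ℕ) : ℚ) = ((p : ℚ) - 1) * ((q : ℚ) - 1) := by
      rw [Nat.cast_mul, Nat.cast_sub hp.one_le, Nat.cast_sub hq.one_le, Nat.cast_one]
    rw [← h11]
    exact_mod_cast h10
  have h7 : cc p q - 1 ≤ (#{x : G | 2 ≤ #(orderOf x).primeFactors} : ℚ) * sl p q := by
    have h8 : cc p q - 1 = (((p : ℚ) - 1) * ((q : ℚ) - 1)) * sl p q := by
      unfold sl
      have h10 : (p : ℚ) - 1 ≠ 0 := by linarith
      have h11 : (q : ℚ) - 1 ≠ 0 := by linarith
      field_simp
    rw [h8]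
    exact mul_le_mul_of_nonneg_right h6 hsl
  linarith

open Classical in
/-- Let the average order `o(G)` of the elements of a finite group `G` be an integer `n`.
For every prime divisor `p` of `|G|` and every `p`-subgroup `P` of `G`, the prime `p` divides the
sum of the orders of the elements of order prime to `p` in the centralizer of `P`.
If `n ≠ 1`, then `n ≥ 13`, the order `|G|` has at least two prime divisors, and for the two
smallest ones `p < q` we have `n ≥ (p - 1 + 1 / p) (q - 1 + 1 / q)`, and `n = 13` only if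
`p = 3`, `q = 5`. -/
theorem bound (G : Type*) [Group G] [Fintype G] (n : ℤ) (hn : avgOrder G = n) :
    (∀ p : ℕ, p.Prime → p ∣ Fintype.card G → ∀ P : Subgroup G, IsPGroup p P →
      p ∣ ∑ x : G with (x ∈ Subgroup.centralizer (P : Set G) ∧ ¬ p ∣ orderOf x), orderOf x) ∧
    (n ≠ 1 → 13 ≤ n ∧ ∃ p q : ℕ, p.Prime ∧ q.Prime ∧ p < q ∧ p ∣ Fintype.card G ∧
      q ∣ Fintype.card G ∧ (∀ r : ℕ, r.Prime → r ∣ Fintype.card G → r = p ∨ q ≤ r) ∧
      ((p : ℚ) - 1 + 1 / p) * ((q : ℚ) - 1 + 1 / q) ≤ n ∧ (n = 13 → p = 3 ∧ q = 5)) := by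
  have hsum := OneModFour.eq_of_avg hn
  have hodd := OneModFour.odd_card hn
  have hs : ∀ r : ℕ, r ∣ Fintype.card G → r ∣ ∑ x : G, orderOf x := by
    intro r hr
    have h2 : (r : ℤ) ∣ ∑ x : G, (orderOf x : ℤ) := by
      rw [hsum]
      exact (Int.natCast_dvd_natCast.2 hr).mul_left _
    exact_mod_cast h2
  refine ⟨fun p hp hpG P hP => dvd_centralizer hp (hs p hpG) P hP, fun h1 => ?_⟩
  have hcard : Fintype.card G ≠ 1 := by
    intro h
    apply h1
    have h2 : ∀ x : G, orderOf x = 1 := by
      intro x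
      have h3 := orderOf_dvd_card (x := x)
      rw [h] at h3
      exact Nat.dvd_one.1 h3
    rw [h, Finset.sum_congr rfl (g := fun _ => (1 : ℤ)) (fun x _ => by rw [h2 x]; rfl)] at hsum
    simp only [Finset.sum_const, Finset.card_univ, h, one_smul, Nat.cast_one, mul_one] at hsum
    exact hsum.symm
  -- the smallest prime divisor
  obtain ⟨p, hp, hpG, hpmin⟩ : ∃ p : ℕ, p.Prime ∧ p ∣ Fintype.card G ∧
      ∀ r : ℕ, r.Prime → r ∣ Fintype.card G → p ≤ r :=
    ⟨(Fintype.card G).minFac, Nat.minFac_prime hcard, Nat.minFac_dvd _,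
      fun r hr hrG => Nat.minFac_le_of_dvd hr.two_le hrG⟩
  have hp3 : 3 ≤ p := by
    have h2 := hp.two_le
    have h3 : p ≠ 2 := by
      rintro rfl
      exact hodd hpG
    omega
  -- the second one
  have hex : ∃ q : ℕ, q.Prime ∧ q ∣ Fintype.card G ∧ q ≠ p := by
    have : Fact p.Prime := ⟨hp⟩
    obtain ⟨g, hg⟩ := exists_prime_orderOf_dvd_card p hpG
    obtain ⟨q, hq, hqp, z, _, hz⟩ :=
      exists_prime_commute (k := 1) hp (hs p hpG) g (by simpa using hg)
    refine ⟨q, hq, ?_, hqp⟩
    rw [← hz]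
    exact orderOf_dvd_card
  obtain ⟨hq, hqG, hqp⟩ := Nat.find_spec hex
  have hqmin : ∀ r : ℕ, r.Prime → r ∣ Fintype.card G → r = p ∨ Nat.find hex ≤ r := by
    intro r hr hrG
    rcases eq_or_ne r p with h | h
    · exact Or.inl h
    · exact Or.inr (Nat.find_min' hex ⟨hr, hrG, h⟩)
  generalize Nat.find hex = q at hq hqG hqp hqmin
  have hpq : p < q := lt_of_le_of_ne (hpmin q hq hqG) (Ne.symm hqp)
  have hmain := main hp hp3 hq hpq hpG hqmin fun r _ hr => hs r hr
  have hc0 : (0 : ℚ) < Fintype.card G := by exact_mod_cast Fintype.card_pos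
  have hle : cc p q ≤ n := by
    have h2 : ∑ x : G, (orderOf x : ℚ) = n * Fintype.card G := by exact_mod_cast hsum
    rw [h2] at hmain
    exact le_of_mul_le_mul_right hmain hc0
  have h4 : n ≡ 1 [ZMOD 4] := (OneModFour.result G n hn).1
  -- monotonicity
  have hmono : ∀ a b : ℕ, 1 ≤ a → a ≤ b → (a : ℚ) - 1 + 1 / a ≤ (b : ℚ) - 1 + 1 / b := by
    intro a b ha hab
    have ha' : (1 : ℚ) ≤ a := by exact_mod_cast ha
    have hab' : (a : ℚ) ≤ b := by exact_mod_cast hab
    have ha0 : (0 : ℚ) < a := by linarith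
    have hb0 : (0 : ℚ) < b := by linarith
    have h5 : (1 : ℚ) / a - 1 / b ≤ b - a := by
      have h6 : (1 : ℚ) / a - 1 / b = (b - a) / (a * b) := by
        field_simp
      rw [h6]
      apply div_le_self (by linarith)
      nlinarith
    linarith
  have hccmono : ∀ a b : ℕ, 1 ≤ a → a ≤ p → 1 ≤ b → b ≤ q → cc a b ≤ cc p q := by
    intro a b ha hap hb hbq
    have h5 := hmono a p ha hap
    have h6 := hmono b q hb hbq
    have ha' : (1 : ℚ) ≤ a := by exact_mod_cast ha
    have hb' : (1 : ℚ) ≤ b := by exact_mod_cast hb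
    have h7 : (0 : ℚ) < 1 / a := one_div_pos.2 (by linarith)
    have h8 : (0 : ℚ) < 1 / b := one_div_pos.2 (by linarith)
    unfold cc
    apply mul_le_mul h5 h6 <;> linarith
  have hqodd : q ≠ 4 ∧ q ≠ 6 := by
    constructor
    · rintro rfl
      exact absurd hq (by norm_num)
    · rintro rfl
      exact absurd hq (by norm_num)
  have hpodd : p ≠ 4 := by
    rintro rfl
    exact absurd hp (by norm_num)
  have h13 : 13 ≤ n := by
    have h5 := hccmono 3 5 (by norm_num) hp3 (by norm_num) (by omega)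
    have h6 : (9 : ℚ) < n := by
      refine lt_of_lt_of_le ?_ (h5.trans hle)
      unfold cc
      norm_num
    have h7 : (9 : ℤ) < n := by exact_mod_cast h6
    obtain ⟨k, hk⟩ := (Int.modEq_iff_dvd.1 h4.symm)
    omega
  refine ⟨h13, p, q, hp, hq, hpq, hpG, hqG, hqmin, hle, ?_⟩
  intro hn13
  rw [hn13] at hle
  by_contra hne
  have h5 : cc 3 7 ≤ cc p q := by
    refine hccmono 3 7 (by norm_num) hp3 (by norm_num) ?_
    by_contra hlt
    apply hne
    omega
  have h6 : cc 3 7 ≤ 13 := h5.trans (by exact_mod_cast hle)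
  unfold cc at h6
  norm_num at h6

end Pool.Agent.AvgOrd.TwoPrimes
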