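import Mathlib

/-!
# Integer average orders of finite groups: a group of order `3375` of average order `13`

`K` is the Frobenius group `C_5 ^ 2 ⋊ C_3` of order `75`; the group is `K × C_3 ^ 2 × C_5`.
-/

open Finset

namespace Pool.Agent.AvgOrd

/-- The powers of an automorphism of order `3` of `C_5 ^ 2` without nonzero fixed points. -/
def rot (i : ZMod 3) (v : ZMod 5 × ZMod 5) : ZMod 5 × ZMod 5 :=
  if i = 0 then v else if i = 1 then (-v.2, v.1 - v.2) else (v.2 - v.1, -v.1)

theorem rot_zero (v : ZMod 5 × ZMod 5) : rot 0 v = v := by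
  simp [rot]

theorem rot_add (i : ZMod 3) (v w : ZMod 5 × ZMod 5) : rot i (v + w) = rot i v + rot i w := by
  unfold rot
  split_ifs
  · rfl
  · ext <;> simp <;> ring
  · ext <;> simp <;> ring

theorem rot_rot (i j : ZMod 3) (v : ZMod 5 × ZMod 5) : rot (i + j) v = rot i (rot j v) := by
  revert i j v
  decide +kernel

/-- The Frobenius group `C_5 ^ 2 ⋊ C_3`. -/
@[ext]
structure K where
  /-- the component in `C_5 ^ 2` -/
  v : ZMod 5 × ZMod 5
  /-- the component in `C_3` -/
  i : ZMod 3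
deriving DecidableEq, Fintype

instance : Mul K := ⟨fun a b => ⟨a.v + rot a.i b.v, a.i + b.i⟩⟩

instance : One K := ⟨⟨0, 0⟩⟩

instance : Inv K := ⟨fun a => ⟨-rot (-a.i) a.v, -a.i⟩⟩

theorem K.mul_v (a b : K) : (a * b).v = a.v + rot a.i b.v := rfl
theorem K.mul_i (a b : K) : (a * b).i = a.i + b.i := rfl
theorem K.one_v : (1 : K).v = 0 := rfl
theorem K.one_i : (1 : K).i = 0 := rfl
theorem K.inv_v (a : K) : (a⁻¹).v = -rot (-a.i) a.v := rfl
theorem K.inv_i (a : K) : (a⁻¹).i = -a.i := rfl

instance : Group K := Group.ofLeftAxioms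
  (by
    intro a b c
    ext1
    · rw [K.mul_v, K.mul_v, K.mul_v, K.mul_v, K.mul_i, rot_add, rot_rot, add_assoc]
    · rw [K.mul_i, K.mul_i, K.mul_i, K.mul_i, add_assoc])
  (by
    intro a
    ext1
    · rw [K.mul_v, K.one_v, K.one_i, rot_zero, zero_add]
    · rw [K.mul_i, K.one_i, zero_add])
  (by
    intro a
    ext1
    · rw [K.mul_v, K.inv_v, K.inv_i, K.one_v, neg_add_cancel]
    · rw [K.mul_i, K.inv_i, K.one_i, neg_add_cancel])

theorem K.card : Fintype.card K = 75 := by decide +kernel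

theorem K.card3 : #{x : K | x ^ 3 = 1} = 51 := by decide +kernel

theorem K.card5 : #{x : K | x ^ 5 = 1} = 25 := by decide +kernel

theorem K.pow15 : ∀ x : K, x ^ 15 = 1 := by decide +kernel

end Pool.Agent.AvgOrd
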